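import Pool.Agent.Helper3.CK.Stm
import Pool.Agent.Helper52.CK.EB
import Pool.Graph.R_pool_sql_team_seeded_63374d34.N52.NH.MAINH
import Pool.Graph.R_pool_sql_team_seeded_63374d34.N897.NH52.HYW
import Pool.Graph.R_pool_sql_team_seeded_63374d34.N52.NH.BLK
import Pool.Graph.R_pool_sql_team_seeded_63374d34.N169.NH52.GEN
import Pool.Graph.R_pool_sql_team_seeded_63374d34.N303.KQ.Evs
import Pool.Graph.R_pool_sql_team_seeded_63374d34.N303.KQ.FG

/-!
# CK: the closure theorem (assembly for words)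
-/

set_option autoImplicit false

namespace Pool.Agent.Helper12.CK

open Matrix Finset
open scoped ComplexOrder
open Pool.Agent.W661.RC Pool.Agent.W683.RC Pool.Agent.N303.KQ
open Pool.Agent.H21R2 (IsHyperlinear IsSofic)
open Pool.Agent.Helper3.CK

noncomputable section

theorem comm_est {d : ℕ} {g Y z : Mt d} (hg : gᴴ * g = 1) :
    hs (g * Y - Y * g) ≤ 8 * hs (Y - z) + 2 * hs (g * z - z * g) := by
  have e : g * Y - Y * g = (g * (Y - z) - (Y - z) * g) + (g * z - z * g) := by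
    simp only [Matrix.mul_sub, Matrix.sub_mul]; abel
  have h1 := Pool.Agent.W683.RC.hs_add_le (g * (Y - z) - (Y - z) * g) (g * z - z * g)
  have h2 := Pool.Agent.W683.RC.hs_sub_le (g * (Y - z)) ((Y - z) * g)
  rw [hs_unit_mul hg, hs_mul_unit hg] at h2
  rw [e]
  linarith

theorem final_bound {l d : ℕ} {UK : Fin l → unitaryGroup (Fin d) ℂ} {OB : Out d}
    {K0 εB η ε0 : ℝ} (hB : BlkA (fun a => (UK a).1) K0 εB OB) (hK0 : 0 ≤ K0) {T u : Mt d}
    (hT : Tᴴ * T = 1) (hu : uᴴ * u = 1)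
    (hcomm : ∀ a, hs ((UK a).1 * T - T * (UK a).1) ≤ η * d) (hN : NearInv OB uᴴ ε0) :
    Pool.Agent.W661.RC.en (fun a => (UK a).1) (uᴴ * T * u) ≤
      (16 * l * (K0 * l * η + εB) + 16 * l * ε0 + 2 * εB) * d := by
  have hTc : Le (Tᴴ * T) 1 := by rw [hT]; exact Le_refl _
  obtain ⟨b, hb, hb1, hb2⟩ := hB.near T hTc
  have hen : Pool.Agent.W661.RC.en (fun a => (UK a).1) T ≤ l * (η * d) := by
    rw [Pool.Agent.W661.RC.en]
    refine (sum_le_sum fun a _ => hcomm a).trans ?_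
    rw [sum_const, card_univ, Fintype.card_fin, nsmul_eq_mul]
  obtain ⟨b', hb', hb'1⟩ := hN b hb hb1
  rw [Matrix.conjTranspose_conjTranspose] at hb'1
  -- the contraction
  have hxc : Le ((uᴴ * b * u)ᴴ * (uᴴ * b * u)) 1 := by
    have h := contr_conj_unit (unit_conj hu) hb1
    rwa [Matrix.conjTranspose_conjTranspose] at h
  set x : Mt d := uᴴ * b * u with hx
  set z : Mt d := Pool.Agent.Helper52.CK.E OB x with hz
  have hz1 : Le (zᴴ * z) 1 := Pool.Agent.Helper52.CK.E_contr hxc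
  have hz2 : z ∈ OB.alg := Pool.Agent.Helper52.CK.E_mem x
  have hz3 : hs (x - z) ≤ ε0 * d := (hs_sub_kp_le hb').trans hb'1
  have hYx : hs (uᴴ * T * u - x) = hs (T - b) := by
    have e : uᴴ * T * u - x = uᴴ * (T - b) * u := by
      rw [hx, Matrix.mul_sub, Matrix.sub_mul]
    rw [e, hs_mul_unit hu, hs_unit_mul (unit_conj hu)]
  have hYz : hs (uᴴ * T * u - z) ≤ 2 * (K0 * (l * (η * d)) + εB * d) + 2 * (ε0 * d) := by
    have e : uᴴ * T * u - z = (uᴴ * T * u - x) + (x - z) := by abel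
    have h1 := Pool.Agent.W683.RC.hs_add_le (uᴴ * T * u - x) (x - z)
    have h2 := mul_le_mul_of_nonneg_left hen hK0
    rw [e]
    rw [hYx] at h1
    linarith
  have hen2 : Pool.Agent.W661.RC.en (fun a => (UK a).1) (uᴴ * T * u) ≤
      l * (8 * hs (uᴴ * T * u - z)) + 2 * Pool.Agent.W661.RC.en (fun a => (UK a).1) z := by
    rw [Pool.Agent.W661.RC.en, Pool.Agent.W661.RC.en, mul_sum]
    have h1 : (l : ℝ) * (8 * hs (uᴴ * T * u - z)) = ∑ _a : Fin l, 8 * hs (uᴴ * T * u - z) := by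
      rw [sum_const, card_univ, Fintype.card_fin, nsmul_eq_mul]
    rw [h1, ← sum_add_distrib]
    exact sum_le_sum fun a _ => comm_est (un_conj (UK a))
  have h3 := hB.en z hz2 hz1
  have h4 : (l : ℝ) * (8 * hs (uᴴ * T * u - z)) ≤
      l * (8 * (2 * (K0 * (l * (η * d)) + εB * d) + 2 * (ε0 * d))) :=
    mul_le_mul_of_nonneg_left (by linarith) (Nat.cast_nonneg l)
  calc Pool.Agent.W661.RC.en (fun a => (UK a).1) (uᴴ * T * u) ≤
      l * (8 * (2 * (K0 * (l * (η * d)) + εB * d) + 2 * (ε0 * d))) + 2 * (εB * d) := by linarith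
    _ = _ := by ring

/-- finitely many of the generators suffice -/
theorem gens {Q : Type} [Group Q] (hQ : HasT Q) (S : Set Q) (hS : Subgroup.closure S = ⊤)
    {s0 : Q} (hs0 : s0 ∈ S) :
    ∃ (k : ℕ) (γ : FreeGroup (Fin k) →* Q) (i0 : Fin k), Function.Surjective γ ∧
      γ (FreeGroup.of i0) = s0 ∧ ∀ i, γ (FreeGroup.of i) ∈ S := by
  classical
  obtain ⟨k', γ', hγ'⟩ := exists_free hQ
  choose F hF hFm using fun s : Fin k' => Pool.Agent.N169.NH52.fin_sub S (γ' (FreeGroup.of s))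
    (by rw [hS]; exact Subgroup.mem_top _)
  obtain ⟨F', hF'⟩ : ∃ F' : Finset Q, F' = insert s0 (univ.biUnion F) := ⟨_, rfl⟩
  have h0 : s0 ∈ F' := by rw [hF']; exact mem_insert_self _ _
  have hsub : ∀ g ∈ F', g ∈ S := by
    intro g hg
    rw [hF', mem_insert, mem_biUnion] at hg
    rcases hg with rfl | ⟨s, _, hs⟩
    · exact hs0
    · exact hF s (mem_coe.2 hs)
  have hle : ∀ s, γ' (FreeGroup.of s) ∈ Subgroup.closure (F' : Set Q) := by
    intro s
    refine Subgroup.closure_mono ?_ (hFm s)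
    intro g hg
    rw [hF']
    exact mem_coe.2 (mem_insert_of_mem (mem_biUnion.2 ⟨s, mem_univ s, mem_coe.1 hg⟩))
  have htop : Subgroup.closure (F' : Set Q) = ⊤ := by
    rw [eq_top_iff]
    intro x _
    obtain ⟨w, rfl⟩ := hγ' x
    induction w using FreeGroup.induction_on with
    | C1 => rw [map_one]; exact one_mem _
    | of s => exact hle s
    | inv_of s hs => rw [map_inv]; exact inv_mem (hs trivial)
    | mul a b ha hb => rw [map_mul]; exact mul_mem (ha trivial) (hb trivial)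
  refine ⟨F'.card, FreeGroup.lift fun i => (F'.equivFin.symm i).1, F'.equivFin ⟨s0, h0⟩, ?_, ?_, ?_⟩
  · rw [← MonoidHom.range_eq_top, FreeGroup.range_lift_eq_closure, ← htop]
    congr 1
    ext g
    constructor
    · rintro ⟨i, rfl⟩
      exact (F'.equivFin.symm i).2
    · intro hg
      exact ⟨F'.equivFin ⟨g, hg⟩, by simp⟩
  · rw [FreeGroup.lift_apply_of, Equiv.symm_apply_apply]
  · intro i
    rw [FreeGroup.lift_apply_of]
    exact hsub _ (F'.equivFin.symm i).2

/-- one generator -/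
theorem step (hC : S_CORE) {P Q : Type} [Group P] [Group Q] (j : Q →* P) (K : Subgroup Q)
    (hP : IsHyperlinear P) (hQ : HasT Q) (hK : HasT K)
    (hgen : Subgroup.closure {s : Q | ∀ x ∈ K, s⁻¹ * x * s ∈ K} = ⊤)
    (t : P) (ht : ∀ x ∈ K, t * j x = j x * t) (s0 : Q) (hs0 : ∀ x ∈ K, s0⁻¹ * x * s0 ∈ K)
    (x0 : Q) (hx0 : x0 ∈ K) : t * j (s0 * x0 * s0⁻¹) = j (s0 * x0 * s0⁻¹) * t := by
  classical
  by_contra hne
  obtain ⟨k, γ, i0, hγ, hi0, hS⟩ := gens hQ _ hgen (s0 := s0) hs0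
  obtain ⟨l, κ, hκ⟩ := exists_free hK
  -- words for the generators of `K`
  choose w hw using fun a : Fin l => hγ (κ (FreeGroup.of a) : Q)
  have hv : ∀ (i : Fin k) (a : Fin l), ∃ v : FreeGroup (Fin l),
      ((κ v : K) : Q) = (γ (FreeGroup.of i))⁻¹ * (κ (FreeGroup.of a) : Q) * γ (FreeGroup.of i) := by
    intro i a
    obtain ⟨v, hv⟩ := hκ ⟨_, hS i _ (κ (FreeGroup.of a)).2⟩
    exact ⟨v, by rw [hv]⟩
  choose v hv using hv
  obtain ⟨vx, hvx⟩ := hκ ⟨x0, hx0⟩
  -- the big free group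
  let c : Fin k → Fin (k + 1) := Fin.castSucc
  let lt : Fin (k + 1) := Fin.last k
  let Γ : FreeGroup (Fin (k + 1)) →* P :=
    FreeGroup.lift (Fin.lastCases t fun i => j (γ (FreeGroup.of i)))
  have hΓc : ∀ i, Γ (FreeGroup.of (c i)) = j (γ (FreeGroup.of i)) := by
    intro i
    simp only [Γ, c, FreeGroup.lift_apply_of, Fin.lastCases_castSucc]
  have hΓt : Γ (FreeGroup.of lt) = t := by
    simp only [Γ, lt, FreeGroup.lift_apply_of, Fin.lastCases_last]
  let em : FreeGroup (Fin k) →* FreeGroup (Fin (k + 1)) :=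
    FreeGroup.lift fun i => FreeGroup.of (c i)
  have hΓem : ∀ r, Γ (em r) = j (γ r) := by
    intro r
    have h1 : Γ.comp em = j.comp γ := by
      apply FreeGroup.ext_hom
      intro i
      simp only [MonoidHom.comp_apply, em, FreeGroup.lift_apply_of]
      exact hΓc i
    exact congrFun (congrArg DFunLike.coe h1) r
  let en' : FreeGroup (Fin l) →* FreeGroup (Fin (k + 1)) :=
    FreeGroup.lift fun a => em (w a)
  have hΓen : ∀ r, Γ (en' r) = j ((κ r : K) : Q) := by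
    intro r
    have h1 : Γ.comp en' = j.comp (K.subtype.comp κ) := by
      apply FreeGroup.ext_hom
      intro a
      simp only [MonoidHom.comp_apply, en', FreeGroup.lift_apply_of]
      rw [hΓem, hw]
      rfl
    exact congrFun (congrArg DFunLike.coe h1) r
  -- constants
  obtain ⟨KQ, hKQ, hBQ⟩ := Pool.Agent.N52.NH.BLK.main Q k γ hQ hγ
  obtain ⟨KK, hKK, hBK⟩ := Pool.Agent.N52.NH.BLK.main K l κ hK hκ
  choose L hL0 hL using fun i a => comm_word (v i a)
  choose L' hL'0 hL' using fun a => comm_word (w a)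
  obtain ⟨Lx, hLx0, hLx⟩ := comm_word vx
  have hS1 : 0 ≤ ∑ i, ∑ a, L i a := sum_nonneg fun i _ => sum_nonneg fun a _ => hL0 i a
  have hS2 : 0 ≤ ∑ a, L' a := sum_nonneg fun a _ => hL'0 a
  have hl0 : (0 : ℝ) ≤ l := Nat.cast_nonneg l
  obtain ⟨M, hM⟩ : ∃ M : ℝ, M = 1 + Lx + l + KK + ∑ i, ∑ a, L i a + ∑ a, L' a := ⟨_, rfl⟩
  have hM1 : 1 ≤ M := by rw [hM]; linarith
  have hMx : Lx ≤ M := by rw [hM]; linarith
  have hMl : (l : ℝ) ≤ M := by rw [hM]; linarith
  have hMK : KK ≤ M := by rw [hM]; linarith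
  have hML : ∑ i, ∑ a, L i a ≤ M := by rw [hM]; linarith
  have hML' : ∑ a, L' a ≤ M := by rw [hM]; linarith
  have hM0 : 0 < M := by linarith
  have hM2 : 1 ≤ M ^ 2 := one_le_pow₀ hM1
  have hM4 : M ^ 2 ≤ M ^ 4 := pow_le_pow_right₀ hM1 (by norm_num)
  have hM4' : 0 < M ^ 4 := by positivity
  have hM2' : 0 < M ^ 2 := by positivity
  obtain ⟨ε0, hε0d⟩ : ∃ ε0 : ℝ, ε0 = 1 / (64 * M ^ 2) := ⟨_, rfl⟩
  have hε0 : 0 < ε0 := by rw [hε0d]; positivity
  have hε0M : M ^ 2 * ε0 = 1 / 64 := by rw [hε0d]; field_simp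
  obtain ⟨εc, hεc, hC⟩ := hC k KQ ε0 hKQ.le hε0
  obtain ⟨εA, hεAd⟩ : ∃ εA : ℝ, εA = εc / (4 * M ^ 2) := ⟨_, rfl⟩
  have hεA : 0 < εA := by rw [hεAd]; positivity
  have hεAM : M ^ 2 * εA = εc / 4 := by rw [hεAd]; field_simp
  have hεAc : εA ≤ εc := by
    have h := mul_le_mul_of_nonneg_right hM2 hεA.le
    linarith
  obtain ⟨η, hηd⟩ : ∃ η : ℝ, η = min εc 1 / (200 * M ^ 4) := ⟨_, rfl⟩
  have hη : 0 < η := by rw [hηd]; have := lt_min hεc one_pos; positivity
  have hηM : M ^ 4 * η = min εc 1 / 200 := by rw [hηd]; field_simp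
  have hηc : M ^ 4 * η ≤ εc / 200 := by
    rw [hηM]; have := min_le_left εc 1; linarith
  have hη1 : M ^ 4 * η ≤ 1 / 200 := by
    rw [hηM]; have := min_le_right εc 1; linarith
  have hηM2 : M ^ 2 * η ≤ M ^ 4 * η := mul_le_mul_of_nonneg_right hM4 hη.le
  have hηM0 : η ≤ M ^ 2 * η := by
    have h := mul_le_mul_of_nonneg_right hM2 hη.le
    linarith
  obtain ⟨RQ, δQ, hRQ, hδQ, hBQ⟩ := hBQ εA hεA
  obtain ⟨RK, δK, hRK, hδK, hBK⟩ := hBK η hη
  -- the relators
  let E1 : Finset (FreeGroup (Fin (k + 1))) := univ.image fun p : Fin k × Fin l =>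
    (em (w p.2) * FreeGroup.of (c p.1)) * (FreeGroup.of (c p.1) * en' (v p.1 p.2))⁻¹
  let E2 : Finset (FreeGroup (Fin (k + 1))) := univ.image fun a : Fin l =>
    (em (w a) * FreeGroup.of lt) * (FreeGroup.of lt * em (w a))⁻¹
  let E3 : Finset (FreeGroup (Fin (k + 1))) := RQ.image fun r => em r
  let E4 : Finset (FreeGroup (Fin (k + 1))) := RK.image fun r => en' r
  have hE : ∀ y ∈ E1 ∪ E2 ∪ E3 ∪ E4, Γ y = 1 := by
    intro y hy
    simp only [mem_union] at hy
    rcases hy with ((hy | hy) | hy) | hy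
    · obtain ⟨⟨i, a⟩, -, rfl⟩ := mem_image.1 hy
      simp only [map_mul, map_inv, hΓem, hΓen, hΓc, hw, hv]
      group
    · obtain ⟨a, -, rfl⟩ := mem_image.1 hy
      simp only [map_mul, map_inv, hΓem, hΓt, hw]
      rw [ht _ (κ (FreeGroup.of a)).2]
      group
    · obtain ⟨r, hr, rfl⟩ := mem_image.1 hy
      rw [hΓem, hRQ r hr, map_one]
    · obtain ⟨r, hr, rfl⟩ := mem_image.1 hy
      rw [hΓen, hRK r hr, Subgroup.coe_one, map_one]
  obtain ⟨q0, hq0⟩ : ∃ q0, q0 = FreeGroup.of (c i0) * en' vx * (FreeGroup.of (c i0))⁻¹ :=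
    ⟨_, rfl⟩
  have hΓq : Γ q0 = j (s0 * x0 * s0⁻¹) := by
    rw [hq0]
    simp only [map_mul, map_inv, hΓen, hΓc, hi0, hvx]
  have hw0 : Γ ((FreeGroup.of lt * q0) * (q0 * FreeGroup.of lt)⁻¹) ≠ 1 := by
    rw [map_mul, map_inv, map_mul, map_mul, hΓt, hΓq]
    intro h1
    exact hne (mul_inv_eq_one.1 h1)
  obtain ⟨d, U, hd, hU, hU0⟩ := Pool.Agent.N897.NH52.HYW.main P hP (k + 1) Γ
    (E1 ∪ E2 ∪ E3 ∪ E4) _ (min (min δQ δK) (min η (1 / 4))) hE hw0
    (lt_min (lt_min hδQ hδK) (lt_min hη (by norm_num)))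
  have hdr : (0 : ℝ) < d := by exact_mod_cast hd
  have hleQ : min (min δQ δK) (min η (1 / 4)) * d ≤ δQ * d :=
    mul_le_mul_of_nonneg_right ((min_le_left _ _).trans (min_le_left _ _)) hdr.le
  have hleK : min (min δQ δK) (min η (1 / 4)) * d ≤ δK * d :=
    mul_le_mul_of_nonneg_right ((min_le_left _ _).trans (min_le_right _ _)) hdr.le
  have hleη : min (min δQ δK) (min η (1 / 4)) * d ≤ η * d :=
    mul_le_mul_of_nonneg_right ((min_le_right _ _).trans (min_le_left _ _)) hdr.le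
  have hle4 : min (min δQ δK) (min η (1 / 4)) * d ≤ 1 / 4 * d :=
    mul_le_mul_of_nonneg_right ((min_le_right _ _).trans (min_le_right _ _)) hdr.le
  let UQ : Fin k → unitaryGroup (Fin d) ℂ := fun i => U (c i)
  let UK : Fin l → unitaryGroup (Fin d) ℂ := fun a => FreeGroup.lift U (em (w a))
  have hUQ : ∀ r, FreeGroup.lift UQ r = FreeGroup.lift U (em r) := by
    intro r
    have h1 : FreeGroup.lift UQ = (FreeGroup.lift U).comp em := by
      apply FreeGroup.ext_hom
      intro i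
      simp only [MonoidHom.comp_apply, em, FreeGroup.lift_apply_of, UQ]
    rw [h1]; rfl
  have hUK : ∀ r, FreeGroup.lift UK r = FreeGroup.lift U (en' r) := by
    intro r
    have h1 : FreeGroup.lift UK = (FreeGroup.lift U).comp en' := by
      apply FreeGroup.ext_hom
      intro a
      simp only [MonoidHom.comp_apply, en', FreeGroup.lift_apply_of, UK]
    rw [h1]; rfl
  obtain ⟨OA, hOA⟩ := hBQ d UQ hd fun r hr => by
    rw [hUQ]
    exact (hU _ (by
      simp only [mem_union]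
      exact Or.inl (Or.inr (mem_image.2 ⟨r, hr, rfl⟩)))).trans hleQ
  obtain ⟨OB, hOB⟩ := hBK d UK hd fun r hr => by
    rw [hUK]
    exact (hU _ (by
      simp only [mem_union]
      exact Or.inr (mem_image.2 ⟨r, hr, rfl⟩))).trans hleK
  have hr1 : ∀ (i : Fin k) (a : Fin l),
      hs ((UK a).1 * (UQ i).1 - (UQ i).1 * (FreeGroup.lift UK (v i a)).1) ≤ η * d := by
    intro i a
    have h1 := hU ((em (w a) * FreeGroup.of (c i)) * (FreeGroup.of (c i) * en' (v i a))⁻¹) (by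
      simp only [mem_union]
      exact Or.inl (Or.inl (Or.inl (mem_image.2 ⟨(i, a), mem_univ _, rfl⟩))))
    rw [Pool.Agent.N52.NH.MAINH.hs_word, map_mul, map_mul, UnitaryGroup.mul_val,
      UnitaryGroup.mul_val, FreeGroup.lift_apply_of, ← hUK] at h1
    exact h1.trans hleη
  have hr2 : ∀ a : Fin l, hs ((UK a).1 * (U lt).1 - (U lt).1 * (UK a).1) ≤ η * d := by
    intro a
    have h1 := hU ((em (w a) * FreeGroup.of lt) * (FreeGroup.of lt * em (w a))⁻¹) (by
      simp only [mem_union]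
      exact Or.inl (Or.inl (Or.inr (mem_image.2 ⟨a, mem_univ _, rfl⟩))))
    rw [Pool.Agent.N52.NH.MAINH.hs_word, map_mul, map_mul, UnitaryGroup.mul_val,
      UnitaryGroup.mul_val, FreeGroup.lift_apply_of] at h1
    exact h1.trans hleη
  have hmono : ∀ {V : Mt d} {δ δ' : ℝ}, NearInv OB V δ → δ ≤ δ' → NearInv OB V δ' := by
    intro V δ δ' hN hδ a ha ha1
    obtain ⟨b, hb, hb1⟩ := hN a ha ha1
    exact ⟨b, hb, hb1.trans (mul_le_mul_of_nonneg_right hδ hdr.le)⟩
  have hN1 : ∀ i, NearInv OB (UQ i).1 εc := by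
    intro i
    refine hmono (nearInv_of hKK.le hOB (un_conj _) (v i) (L i) (hL0 i)
      (fun a m => hL i a d UK m) (hr1 i)) ?_
    have e1 : ∑ a, (2 * L i a * η + 8 * η) = 2 * η * ∑ a, L i a + 8 * η * l := by
      rw [sum_add_distrib, mul_sum, sum_const, card_univ, Fintype.card_fin, nsmul_eq_mul]
      congr 1
      · exact sum_congr rfl fun s _ => by ring
      · ring
    rw [e1]
    have h1 : ∑ a, L i a ≤ M := by
      refine le_trans ?_ hML
      exact single_le_sum (f := fun i => ∑ a, L i a) (fun i _ => sum_nonneg fun a _ => hL0 i a)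
        (mem_univ i)
    have h2 : 2 * η * ∑ a, L i a + 8 * η * l ≤ 2 * η * M + 8 * η * M := by
      have h3 := mul_le_mul_of_nonneg_left h1 (show 0 ≤ 2 * η by positivity)
      have h4 := mul_le_mul_of_nonneg_left hMl (show 0 ≤ 8 * η by positivity)
      linarith
    have h0 : 0 ≤ 2 * η * ∑ a, L i a + 8 * η * l := by
      have h5 : 0 ≤ ∑ a, L i a := sum_nonneg fun a _ => hL0 i a
      positivity
    have h3 : KK * (2 * η * ∑ a, L i a + 8 * η * l) ≤ M * (2 * η * M + 8 * η * M) :=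
      mul_le_mul hMK h2 h0 hM0.le
    have h4 : M * (2 * η * M + 8 * η * M) = 10 * (M ^ 2 * η) := by ring
    linarith
  have hnear : ∀ a ∈ OA.alg, Le (aᴴ * a) 1 → ∃ b ∈ OB.alg, hs (a - b) ≤ εc * d := by
    intro a ha ha1
    obtain ⟨b, hb, -, hb2⟩ := hOB.near a ha1
    refine ⟨b, hb, hb2.trans ?_⟩
    have h1 := hOA.en a ha ha1
    have h2 : Pool.Agent.W661.RC.en (fun s => (UK s).1) a ≤ M * (εA * d) := by
      have h3 : Pool.Agent.W661.RC.en (fun s => (UK s).1) a ≤ ∑ s, L' s * (εA * d) := by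
        rw [Pool.Agent.W661.RC.en]
        refine sum_le_sum fun s _ => ?_
        have h4 := hL' s d UQ a
        rw [hUQ] at h4
        exact h4.trans (mul_le_mul_of_nonneg_left h1 (hL'0 s))
      rw [← sum_mul] at h3
      exact h3.trans (mul_le_mul_of_nonneg_right hML' (by positivity))
    have h3 : KK * Pool.Agent.W661.RC.en (fun s => (UK s).1) a ≤ M * (M * (εA * d)) := by
      refine mul_le_mul hMK h2 ?_ hM0.le
      exact sum_nonneg fun s _ => Pool.Agent.W683.RC.hs_nonneg _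
    have h4 : M * (M * (εA * d)) = (M ^ 2 * εA) * d := by ring
    have h5 : η ≤ εc / 200 := by linarith
    have h6 := mul_le_mul_of_nonneg_right h5 hdr.le
    rw [h4, hεAM] at h3
    have h7 : 0 ≤ εc * d := by positivity
    linarith
  have hsize : (d : ℝ) - D0 OB ≤ εc * d := by
    refine hOB.size.trans (mul_le_mul_of_nonneg_right ?_ hdr.le)
    linarith
  have key := hC d OA OB (fun i => (UQ i).1) (fun i => un_conj _) hN1 (hOA.mono hεAc) hnear
    hsize i0
  have hfin := final_bound hOB hKK.le (un_conj (U lt)) (un_conj (UQ i0)) hr2 key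
  have hcw := hLx d UK (((UQ i0).1)ᴴ * (U lt).1 * (UQ i0).1)
  rw [Pool.Agent.N52.NH.MAINH.hs_word, map_mul, map_mul, UnitaryGroup.mul_val,
    UnitaryGroup.mul_val, FreeGroup.lift_apply_of] at hU0
  set T : Mt d := (U lt).1 with hT
  set u : Mt d := (UQ i0).1 with hu
  set X : Mt d := (FreeGroup.lift UK vx).1 with hX
  have hq : (FreeGroup.lift U q0).1 = u * X * uᴴ := by
    rw [hq0, map_mul, map_mul, map_inv, UnitaryGroup.mul_val, UnitaryGroup.mul_val,
      FreeGroup.lift_apply_of, hX, hUK]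
    rfl
  rw [hq] at hU0
  have huu : uᴴ * u = 1 := un_conj _
  have hcomm : hs (T * (u * X * uᴴ) - u * X * uᴴ * T) =
      hs (X * (uᴴ * T * u) - uᴴ * T * u * X) := by
    have e1 : uᴴ * (T * (u * X * uᴴ) - u * X * uᴴ * T) * u =
        -(X * (uᴴ * T * u) - uᴴ * T * u * X) := by
      have e2 : uᴴ * (T * (u * X * uᴴ) - u * X * uᴴ * T) * u =
          uᴴ * T * u * X * (uᴴ * u) - (uᴴ * u) * X * uᴴ * T * u := by
        simp only [Matrix.mul_sub, Matrix.sub_mul, Matrix.mul_assoc]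
      rw [e2, huu, Matrix.mul_one, Matrix.one_mul]
      simp only [Matrix.mul_assoc]
      abel
    have e3 := hs_neg (X * (uᴴ * T * u) - uᴴ * T * u * X)
    rw [← e1, hs_mul_unit huu, hs_unit_mul (unit_conj huu)] at e3
    exact e3
  rw [hcomm] at hU0
  -- the final inequality
  have hA : 16 * l * (KK * l * η + η) + 16 * l * ε0 + 2 * η ≤
      16 * M * (M * M * η + η) + 16 * M * ε0 + 2 * η := by
    have h1 : KK * l ≤ M * M := mul_le_mul hMK hMl hl0 hM0.le
    have h2 : KK * l * η ≤ M * M * η := mul_le_mul_of_nonneg_right h1 hη.le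
    have h3 : 16 * (l : ℝ) * (KK * l * η + η) ≤ 16 * M * (M * M * η + η) := by
      apply mul_le_mul (by linarith) (by linarith) (by positivity) (by positivity)
    have h4 : 16 * (l : ℝ) * ε0 ≤ 16 * M * ε0 := mul_le_mul_of_nonneg_right (by linarith) hε0.le
    linarith
  have hB : Lx * Pool.Agent.W661.RC.en (fun s => (UK s).1) (uᴴ * T * u) ≤
      M * ((16 * M * (M * M * η + η) + 16 * M * ε0 + 2 * η) * d) := by
    refine mul_le_mul hMx (hfin.trans (mul_le_mul_of_nonneg_right hA hdr.le)) ?_ hM0.le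
    exact sum_nonneg fun s _ => Pool.Agent.W683.RC.hs_nonneg _
  have hMη : M * η ≤ M ^ 2 * η := by
    have h1 : M ≤ M ^ 2 := by nlinarith
    exact mul_le_mul_of_nonneg_right h1 hη.le
  have hD : M * ((16 * M * (M * M * η + η) + 16 * M * ε0 + 2 * η) * d) =
      (16 * (M ^ 4 * η) + 16 * (M ^ 2 * η) + 16 * (M ^ 2 * ε0) + 2 * (M * η)) * d := by ring
  rw [hD] at hB
  have hE' : 16 * (M ^ 4 * η) + 16 * (M ^ 2 * η) + 16 * (M ^ 2 * ε0) + 2 * (M * η) ≤ 1 / 2 := by
    rw [hε0M]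
    linarith
  have hF := mul_le_mul_of_nonneg_right hE' hdr.le
  linarith

/-- the closure theorem -/
theorem s_clos (hC : S_CORE) : S_CLOS := by
  intro P _ Q _ j K hP hQ hK hgen t ht q x hx
  have key : ∀ q : Q, ∀ t : P, (∀ x ∈ K, t * j x = j x * t) →
      (∀ x ∈ K, (j q * t * (j q)⁻¹) * j x = j x * (j q * t * (j q)⁻¹)) ∧
      (∀ x ∈ K, ((j q)⁻¹ * t * j q) * j x = j x * ((j q)⁻¹ * t * j q)) := by
    intro q
    have hq : q ∈ Subgroup.closure {s : Q | ∀ x ∈ K, s⁻¹ * x * s ∈ K} := by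
      rw [hgen]; exact Subgroup.mem_top _
    induction hq using Subgroup.closure_induction with
    | mem s hs =>
      intro t ht
      refine ⟨fun x hx => ?_, fun x hx => ?_⟩
      · have h1 := ht _ (hs x hx)
        simp only [map_mul, map_inv] at h1
        calc (j s * t * (j s)⁻¹) * j x = j s * (t * ((j s)⁻¹ * j x * j s)) * (j s)⁻¹ := by group
          _ = j s * ((j s)⁻¹ * j x * j s * t) * (j s)⁻¹ := by rw [h1]
          _ = _ := by group
      · have h1 := step hC j K hP hQ hK hgen t ht s hs x hx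
        simp only [map_mul, map_inv] at h1
        calc ((j s)⁻¹ * t * j s) * j x = (j s)⁻¹ * (t * (j s * j x * (j s)⁻¹)) * j s := by group
          _ = (j s)⁻¹ * (j s * j x * (j s)⁻¹ * t) * j s := by rw [h1]
          _ = _ := by group
    | one =>
      intro t ht
      simp only [map_one, one_mul, inv_one, mul_one]
      exact ⟨ht, ht⟩
    | mul a b _ _ ha hb =>
      intro t ht
      have h1 := (ha _ (hb t ht).1).1
      have h2 := (hb _ (ha t ht).2).2
      have e1 : j (a * b) * t * (j (a * b))⁻¹ = j a * (j b * t * (j b)⁻¹) * (j a)⁻¹ := by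
        rw [map_mul]; group
      have e2 : (j (a * b))⁻¹ * t * j (a * b) = (j b)⁻¹ * ((j a)⁻¹ * t * j a) * j b := by
        rw [map_mul]; group
      rw [e1, e2]
      exact ⟨h1, h2⟩
    | inv a _ ha =>
      intro t ht
      have h := ha t ht
      rw [map_inv, inv_inv]
      exact ⟨h.2, h.1⟩
  have h1 := (key q t ht).2 x hx
  simp only [map_mul, map_inv]
  calc t * (j q * j x * (j q)⁻¹) = j q * (((j q)⁻¹ * t * j q) * j x) * (j q)⁻¹ := by group
    _ = j q * (j x * ((j q)⁻¹ * t * j q)) * (j q)⁻¹ := by rw [h1]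
    _ = _ := by group

end

end Pool.Agent.Helper12.CK

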